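import Pool.Agent.H81.FX.Targets

/-!
The first conditions fail for boundedly many generators.
-/

set_option autoImplicit false

namespace Pool.Agent.H78.FCX

open Pool.Agent.H81.FX Finset

theorem Cl_nonneg {ι : Type} [DecidableEq ι] {m : ℕ} (S : Finset (FreeGroup ι))
    (b : Fin m → FreeGroup ι → ℂ) (ε : ℝ) (ξ : FreeGroup ι) : 0 ≤ Cl S b ε ξ := by
  classical
  unfold Cl
  refine Finset.sum_nonneg fun i _ => Finset.sum_nonneg fun g _ => ?_
  split_ifs
  · exact norm_nonneg _
  · exact le_rfl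

theorem one_ends {ι : Type} [DecidableEq ι] (T : Finset ι) (ξ : FreeGroup ι) (c : ℝ) (hc : 0 ≤ c) :
    ∑ k ∈ T, (if Ends ξ (k, true) ∨ Ends ξ (k, false) then c else 0) ≤ c := by
  rcases h : ξ.toWord.getLast? with _ | ⟨k₀, b₀⟩
  · rw [Finset.sum_eq_zero]
    · exact hc
    · intro k _
      rw [if_neg]
      unfold Ends
      rw [h]
      simp
  · have h1 : ∀ k, (if Ends ξ (k, true) ∨ Ends ξ (k, false) then c else 0) =
        if k₀ = k then c else 0 := by
      intro k
      refine if_congr ?_ rfl rfl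
      unfold Ends
      rw [h]
      constructor
      · rintro (h2 | h2)
        · simp only [Option.some.injEq, Prod.mk.injEq] at h2
          exact h2.1
        · simp only [Option.some.injEq, Prod.mk.injEq] at h2
          exact h2.1
      · rintro rfl
        cases b₀
        · right; rfl
        · left; rfl
    simp only [h1]
    rw [Finset.sum_ite_eq]
    split_ifs
    · exact le_rfl
    · exact hc

theorem pf_G1 (hCLM : T_CLM) : T_G1 := by
  classical
  intro m ε ε₁ hε hε₁
  refine ⟨⌈(m : ℝ) / ε ^ 2⌉₊ + ⌈(m : ℝ) / (ε * ε₁)⌉₊, ?_⟩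
  intro ι inst S b hb T hT
  obtain ⟨hcl, hcard⟩ := hCLM m ε hε ι S b hb
  let P : ι → Prop := fun k => ∀ i, ∀ g ∈ Hv S b ε i, FreeGroup.of k * g ∉ Hv S b ε i
  let Q : ι → Prop := fun k => ∀ Ξ : Finset (FreeGroup ι),
    ∑ ξ ∈ Ξ, (if Ends ξ (k, true) ∨ Ends ξ (k, false) then Cl S b ε ξ else 0) ≤ ε₁
  have hsplit : T = T.filter (fun k => ¬ P k) ∪ T.filter (fun k => ¬ Q k) := by
    ext k
    rw [mem_union, mem_filter, mem_filter]
    constructor
    · intro hk
      have h1 := hT k hk
      unfold Good1 at h1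
      rw [not_and_or] at h1
      rcases h1 with h1 | h1
      · exact Or.inl ⟨hk, h1⟩
      · exact Or.inr ⟨hk, h1⟩
    · rintro (h | h)
      · exact h.1
      · exact h.1
  -- the first part
  have h1 : ((T.filter (fun k => ¬ P k)).card : ℝ) ≤ (m : ℝ) / ε ^ 2 := by
    let HF : Fin m → Finset (FreeGroup ι) := fun i => S.filter fun g => ε ≤ ‖b i g‖
    have hHF : ∀ i, ((HF i).card : ℝ) ≤ 1 / ε := by
      intro i
      have := hcard i (HF i) (fun g hg => ⟨(mem_filter.1 hg).1, (mem_filter.1 hg).2⟩)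
      rw [le_div_iff₀ hε]
      exact this
    have hsub : (T.filter (fun k => ¬ P k)).image FreeGroup.of ⊆
        ((univ : Finset (Fin m)).sigma (fun i => HF i ×ˢ HF i)).image
          (fun p => p.2.2 * p.2.1⁻¹) := by
      intro x hx
      obtain ⟨k, hk, rfl⟩ := mem_image.1 hx
      have h2 := (mem_filter.1 hk).2
      simp only [P] at h2
      push Not at h2
      obtain ⟨i, g, hg, hg'⟩ := h2
      refine mem_image.2 ⟨⟨i, (g, FreeGroup.of k * g)⟩, ?_, ?_⟩
      · rw [mem_sigma]
        exact ⟨mem_univ _, mem_product.2 ⟨mem_filter.2 ⟨hg.1, hg.2⟩, mem_filter.2 ⟨hg'.1, hg'.2⟩⟩⟩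
      · simp
    have h3 : (T.filter (fun k => ¬ P k)).card ≤
        ((univ : Finset (Fin m)).sigma (fun i => HF i ×ˢ HF i)).card := by
      rw [← card_image_of_injective _ (FreeGroup.of_injective (α := ι))]
      exact (card_le_card hsub).trans card_image_le
    have h4 : ((((univ : Finset (Fin m)).sigma (fun i => HF i ×ˢ HF i)).card : ℕ) : ℝ) ≤
        (m : ℝ) / ε ^ 2 := by
      rw [card_sigma]
      push_cast
      calc ∑ i : Fin m, (((HF i ×ˢ HF i).card : ℕ) : ℝ) ≤ ∑ _i : Fin m, 1 / ε ^ 2 := by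
            refine Finset.sum_le_sum fun i _ => ?_
            rw [card_product]
            push_cast
            have h5 := hHF i
            have h6 : (0 : ℝ) ≤ (HF i).card := Nat.cast_nonneg _
            calc ((HF i).card : ℝ) * (HF i).card ≤ 1 / ε * (1 / ε) :=
                  mul_le_mul h5 h5 h6 (by positivity)
              _ = 1 / ε ^ 2 := by
                  field_simp
        _ = (m : ℝ) / ε ^ 2 := by
            rw [Finset.sum_const, Finset.card_univ, Fintype.card_fin, nsmul_eq_mul]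
            ring
    exact le_trans (by exact_mod_cast h3) h4
  -- the second part
  have h2 : ((T.filter (fun k => ¬ Q k)).card : ℝ) ≤ (m : ℝ) / (ε * ε₁) := by
    set T₂ := T.filter (fun k => ¬ Q k) with hT₂
    have hex : ∀ k ∈ T₂, ∃ Ξ : Finset (FreeGroup ι),
        ε₁ < ∑ ξ ∈ Ξ, (if Ends ξ (k, true) ∨ Ends ξ (k, false) then Cl S b ε ξ else 0) := by
      intro k hk
      have h3 := (mem_filter.1 hk).2
      simp only [Q] at h3
      push Not at h3
      exact h3
    choose! Ξ hΞ using hex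
    have h3 : (T₂.card : ℝ) * ε₁ ≤ m / ε := by
      calc (T₂.card : ℝ) * ε₁ = ∑ _k ∈ T₂, ε₁ := by rw [Finset.sum_const, nsmul_eq_mul]
        _ ≤ ∑ k ∈ T₂, ∑ ξ ∈ T₂.biUnion Ξ,
              (if Ends ξ (k, true) ∨ Ends ξ (k, false) then Cl S b ε ξ else 0) := by
            refine Finset.sum_le_sum fun k hk => (hΞ k hk).le.trans ?_
            refine Finset.sum_le_sum_of_subset_of_nonneg (Finset.subset_biUnion_of_mem Ξ hk) ?_
            intro ξ _ _
            split_ifs
            · exact Cl_nonneg S b ε ξ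
            · exact le_rfl
        _ = ∑ ξ ∈ T₂.biUnion Ξ, ∑ k ∈ T₂,
              (if Ends ξ (k, true) ∨ Ends ξ (k, false) then Cl S b ε ξ else 0) :=
            Finset.sum_comm
        _ ≤ ∑ ξ ∈ T₂.biUnion Ξ, Cl S b ε ξ :=
            Finset.sum_le_sum fun ξ _ => one_ends T₂ ξ _ (Cl_nonneg S b ε ξ)
        _ ≤ m / ε := hcl _
    rw [le_div_iff₀ (by positivity)]
    calc (T₂.card : ℝ) * (ε * ε₁) = (T₂.card : ℝ) * ε₁ * ε := by ring
      _ ≤ m / ε * ε := mul_le_mul_of_nonneg_right h3 hε.le
      _ = m := by field_simp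
  have h3 : T.card ≤ (T.filter (fun k => ¬ P k)).card + (T.filter (fun k => ¬ Q k)).card := by
    conv_lhs => rw [hsplit]
    exact card_union_le _ _
  refine h3.trans (Nat.add_le_add ?_ ?_)
  · have := h1.trans (Nat.le_ceil _)
    exact_mod_cast this
  · have := h2.trans (Nat.le_ceil _)
    exact_mod_cast this

end Pool.Agent.H78.FCX
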