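import Pool.Agent.H81.FX.Targets

/-!
All but boundedly many generators are good.
-/

set_option autoImplicit false

namespace Pool.Agent.H78.FCX

open Pool.Agent.H81.FX Finset

theorem pf_GOOD (hG1 : T_G1) (hG2 : T_G2) : T_GOOD := by
  classical
  intro m ε τ ε₁ ε₂ hε hτ hε₁ hε₂
  obtain ⟨N₁, hN₁⟩ := hG1 m ε ε₁ hε hε₁
  obtain ⟨N₂, hN₂⟩ := hG2 m ε τ ε₂ hε hτ hε₂
  refine ⟨N₁ + (N₂ + N₂), ?_⟩
  intro ι _ S b hb
  have key : ∀ T : Finset ι, (∀ k ∈ T, ¬ Good S b ε τ ε₁ ε₂ k) → T.card ≤ N₁ + (N₂ + N₂) := by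
    intro T hT
    have h1 := hN₁ ι S b hb (T.filter fun k => ¬ Good1 S b ε ε₁ k)
      (fun k hk => (mem_filter.1 hk).2)
    have hb2 : ∀ c : Bool, (T.filter fun k => ¬ Good2 S b ε τ ε₂ (k, c)).card ≤ N₂ := by
      intro c
      have h2 := hN₂ ι S b hb ((T.filter fun k => ¬ Good2 S b ε τ ε₂ (k, c)).image
        (fun k => (k, c))) (fun s hs => by
          obtain ⟨k, hk, rfl⟩ := mem_image.1 hs
          exact (mem_filter.1 hk).2)
      rwa [card_image_of_injective _ (fun a a' h => (Prod.mk.inj h).1)] at h2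
    have h3 : T ⊆ (T.filter fun k => ¬ Good1 S b ε ε₁ k) ∪
        ((T.filter fun k => ¬ Good2 S b ε τ ε₂ (k, true)) ∪
          (T.filter fun k => ¬ Good2 S b ε τ ε₂ (k, false))) := by
      intro k hk
      have h4 := hT k hk
      unfold Good at h4
      rw [not_and_or, not_and_or] at h4
      rw [mem_union, mem_union, mem_filter, mem_filter, mem_filter]
      rcases h4 with h4 | h4 | h4
      · exact Or.inl ⟨hk, h4⟩
      · exact Or.inr (Or.inl ⟨hk, h4⟩)
      · exact Or.inr (Or.inr ⟨hk, h4⟩)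
    calc T.card ≤ _ := card_le_card h3
      _ ≤ _ := card_union_le _ _
      _ ≤ N₁ + (N₂ + N₂) :=
        Nat.add_le_add h1 ((card_union_le _ _).trans (Nat.add_le_add (hb2 true) (hb2 false)))
  have hfin : {k : ι | ¬ Good S b ε τ ε₁ ε₂ k}.Finite := by
    by_contra hinf
    obtain ⟨T, hT, hTc⟩ := Set.Infinite.exists_subset_card_eq hinf (N₁ + (N₂ + N₂) + 1)
    have := key T (fun k hk => hT hk)
    omega
  refine ⟨hfin.toFinset, key _ (fun k hk => (hfin.mem_toFinset).1 hk), fun k hk => ?_⟩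
  by_contra hc
  exact hk (hfin.mem_toFinset.2 hc)

end Pool.Agent.H78.FCX
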